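import Pool.Agent.P.MP_0c3bbf_an.Defs

-- part Pool.Agent.P.MP_0c3bbf_an.Avg
section

namespace Pool.Agent.P.MP_0c3bbf_an

open Filter Topology

theorem exists_ulim (U : Ultrafilter ℕ) (a : ℕ → ℝ) (C : ℝ) (h : ∀ n, |a n| ≤ C) :
    ∃ l, Tendsto a U (𝓝 l) := by
  obtain ⟨l, -, hl⟩ := (isCompact_Icc (a := -C) (b := C)).ultrafilter_le_nhds (U.map a) (by
    rw [Ultrafilter.coe_map, le_principal_iff, mem_map]
    exact Eventually.of_forall fun n => abs_le.mp (h n))
  exact ⟨l, hl⟩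

theorem exists_ulim_bilin (U : Ultrafilter ℕ) {E : Type*} [AddCommGroup E] [Module ℝ E]
    (B : ℕ → E →ₗ[ℝ] E →ₗ[ℝ] ℝ) (h : ∀ x y, ∃ C, ∀ n, |B n x y| ≤ C) :
    ∃ B' : E →ₗ[ℝ] E →ₗ[ℝ] ℝ, ∀ x y, Tendsto (fun n => B n x y) U (𝓝 (B' x y)) := by
  have : ∀ x y, ∃ l, Tendsto (fun n => B n x y) U (𝓝 l) := fun x y => by
    obtain ⟨C, hC⟩ := h x y
    exact exists_ulim U _ C hC
  choose l hl using this
  refine ⟨LinearMap.mk₂ ℝ l ?_ ?_ ?_ ?_, hl⟩
  · intro x y z
    refine tendsto_nhds_unique (hl (x + y) z) ?_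
    simpa using (hl x z).add (hl y z)
  · intro c x z
    refine tendsto_nhds_unique (hl (c • x) z) ?_
    simpa using (hl x z).const_mul c
  · intro x y z
    refine tendsto_nhds_unique (hl x (y + z)) ?_
    simpa using (hl x y).add (hl x z)
  · intro c x z
    refine tendsto_nhds_unique (hl x (c • z)) ?_
    simpa using (hl x z).const_mul c

variable {G : Type} [Group G] [DecidableEq G]

noncomputable def defect (S : Finset G) (t : G) : ℝ :=
  ((symmDiff (S.image fun h => t * h) S).card : ℝ) / (S.card : ℝ)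

theorem sum_shift_le (S : Finset G) (t : G) (a : G → ℝ) (C : ℝ) (h : ∀ g, |a g| ≤ C) :
    |∑ g ∈ S, a (t * g) - ∑ g ∈ S, a g| ≤
      C * ((symmDiff (S.image fun h => t * h) S).card : ℝ) := by
  have h1 : ∑ g ∈ S, a (t * g) = ∑ g ∈ S.image (fun h => t * h), a g := by
    rw [Finset.sum_image]
    intro x _ y _ hxy
    exact mul_left_cancel hxy
  set T := S.image fun h => t * h
  have h2 : ∑ g ∈ T, a g - ∑ g ∈ S, a g = ∑ g ∈ T \ S, a g - ∑ g ∈ S \ T, a g :=
    Finset.sum_sdiff_sub_sum_sdiff.symm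
  have h3 : (symmDiff T S).card = (T \ S).card + (S \ T).card := by
    rw [symmDiff_def, Finset.sup_eq_union, Finset.card_union_of_disjoint disjoint_sdiff_sdiff]
  have h4 : ∀ A : Finset G, |∑ g ∈ A, a g| ≤ C * A.card := by
    intro A
    refine (Finset.abs_sum_le_sum_abs _ _).trans ?_
    refine (Finset.sum_le_card_nsmul _ _ C fun g _ => h g).trans ?_
    rw [nsmul_eq_mul, mul_comm]
  rw [h1, h2, h3]
  refine (abs_sub _ _).trans ?_
  push_cast
  linarith [h4 (T \ S), h4 (S \ T)]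

theorem avg_shift_le (S : Finset G) (t : G) (a : G → ℝ) (C : ℝ) (h : ∀ g, |a g| ≤ C) :
    |(∑ g ∈ S, a (t * g)) / S.card - (∑ g ∈ S, a g) / S.card| ≤ C * defect S t := by
  rw [← sub_div, abs_div, Nat.abs_cast, defect, ← mul_div_assoc]
  exact div_le_div_of_nonneg_right (sum_shift_le S t a C h) (Nat.cast_nonneg _)

theorem abs_avg_le {α : Type*} (S : Finset α) (a : α → ℝ) (C : ℝ) (hC : 0 ≤ C)
    (h : ∀ g, |a g| ≤ C) : |(∑ g ∈ S, a g) / S.card| ≤ C := by
  rcases S.eq_empty_or_nonempty with rfl | hS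
  · simpa using hC
  have hpos : (0 : ℝ) < S.card := by exact_mod_cast hS.card_pos
  rw [abs_div, Nat.abs_cast, div_le_iff₀ hpos]
  refine (Finset.abs_sum_le_sum_abs _ _).trans ?_
  refine (Finset.sum_le_card_nsmul _ _ C fun g _ => h g).trans ?_
  rw [nsmul_eq_mul, mul_comm]

theorem IsFolner.comp {F : ℕ → Finset G} (hF : IsFolner F) {φ : ℕ → ℕ}
    (hφ : Tendsto φ atTop atTop) : IsFolner (fun n => F (φ n)) :=
  ⟨fun n => hF.1 _, fun g => (hF.2 g).comp hφ⟩

theorem IsFolner.defect {F : ℕ → Finset G} (hF : IsFolner F) (t : G) :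
    Tendsto (fun n => defect (F n) t) atTop (𝓝 0) := hF.2 t

end Pool.Agent.P.MP_0c3bbf_an
end

-- part Pool.Agent.P.MP_0c3bbf_an.Hilbert
section

namespace Pool.Agent.P.MP_0c3bbf_an

open Filter Topology
open scoped RealInnerProductSpace

/- `g` is killed by every homomorphism to a compact metrizable group -/
def InKer {G : Type} [Group G] (g : G) : Prop :=
  ∀ (K : Type) [Group K] [TopologicalSpace K] [IsTopologicalGroup K] [CompactSpace K] [T2Space K]
    [SecondCountableTopology K] (σ : G →* K), σ g = 1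

theorem InKer.conj {G : Type} [Group G] {g : G} (hg : InKer g) (t : G) : InKer (t * g * t⁻¹) := by
  intro K _ _ _ _ _ _ σ
  simp [hg K σ]

theorem InKer.inv {G : Type} [Group G] {g : G} (hg : InKer g) : InKer g⁻¹ := by
  intro K _ _ _ _ _ _ σ
  simp [hg K σ]

variable {G : Type} [Group G] {H : Type} [NormedAddCommGroup H] [InnerProductSpace ℝ H]

theorem rep_mul (π : G →* (H →ₗᵢ[ℝ] H)) (g h : G) (x : H) : π (g * h) x = π g (π h x) := by
  rw [map_mul]; rfl

theorem rep_one (π : G →* (H →ₗᵢ[ℝ] H)) (x : H) : π 1 x = x := by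
  rw [map_one]; rfl

theorem rep_inner_left (π : G →* (H →ₗᵢ[ℝ] H)) (g : G) (x y : H) :
    ⟪π g x, y⟫ = ⟪x, π g⁻¹ y⟫ := by
  rw [← (π g).inner_map_map x, ← rep_mul, mul_inv_cancel, rep_one]

theorem fd_triv_aux (W : Type) [NormedAddCommGroup W] [InnerProductSpace ℝ W]
    [FiniteDimensional ℝ W] (σ0 : G →* (W ≃ₗᵢ[ℝ] W)) {g : G} (hg : InKer g) : σ0 g = 1 := by
  have : CompleteSpace W := FiniteDimensional.complete ℝ W
  have : ProperSpace (W →L[ℝ] W) := FiniteDimensional.proper_real (W →L[ℝ] W)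
  have : CompactSpace (unitary (W →L[ℝ] W)) := by
    refine isCompact_iff_compactSpace.mp
      (Metric.isCompact_of_isClosed_isBounded isClosed_unitary ?_)
    refine (Metric.isBounded_closedBall (x := 0) (r := 1)).subset fun u hu => ?_
    rw [mem_closedBall_zero_iff]
    exact ContinuousLinearMap.opNorm_le_bound _ zero_le_one fun x => by
      rw [one_mul]; exact (ContinuousLinearMap.norm_map_of_mem_unitary hu x).le
  have h1 := hg (unitary (W →L[ℝ] W)) (Unitary.linearIsometryEquiv.symm.toMonoidHom.comp σ0)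
  simpa using h1

theorem fd_triv (π : G →* (H →ₗᵢ[ℝ] H)) (V : Submodule ℝ H) [FiniteDimensional ℝ V]
    (hV : ∀ g, ∀ v ∈ V, π g v ∈ V) {g : G} (hg : InKer g) : ∀ v ∈ V, π g v = v := by
  let e : G → V ≃ₗᵢ[ℝ] V := fun g =>
    { toFun := fun v => ⟨π g v, hV g v v.2⟩
      invFun := fun v => ⟨π g⁻¹ v, hV g⁻¹ v v.2⟩
      map_add' := fun v w => Subtype.ext (by simp)
      map_smul' := fun c v => Subtype.ext (by simp)
      left_inv := fun v => Subtype.ext (by simp [← rep_mul])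
      right_inv := fun v => Subtype.ext (by simp [← rep_mul])
      norm_map' := fun v => (π g).norm_map v }
  let σ0 : G →* (V ≃ₗᵢ[ℝ] V) :=
    { toFun := e
      map_one' := by ext v; exact rep_one π v
      map_mul' := fun g h => by ext v; exact rep_mul π g h v }
  have h2 : σ0 g = 1 := fd_triv_aux V σ0 hg
  intro v hv
  exact congrArg Subtype.val (DFunLike.congr_fun h2 ⟨v, hv⟩)

theorem compact_of_trace [CompleteSpace H] (T : H →L[ℝ] H) (C : ℝ)
    (hC : ∀ (n : ℕ) (e : Fin n → H), Orthonormal ℝ e → ∑ i, ‖T (e i)‖ ^ 2 ≤ C) :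
    IsCompactOperator T := by
  refine isClosed_setOfPred_isCompactOperator.closure_subset
    (Metric.mem_closure_iff.mpr fun η hη => ?_)
  let A : Set ℝ := {r | ∃ (n : ℕ) (e : Fin n → H), Orthonormal ℝ e ∧ r = ∑ i, ‖T (e i)‖ ^ 2}
  have hA : A.Nonempty := ⟨_, 0, Fin.elim0, Orthonormal.of_isEmpty _, rfl⟩
  have hb : BddAbove A := ⟨C, by rintro _ ⟨n, e, he, rfl⟩; exact hC n e he⟩
  obtain ⟨_, ⟨n, e, he, rfl⟩, hr⟩ :=
    exists_lt_of_lt_csSup hA (show sSup A - (η / 2) ^ 2 < sSup A by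
      have : 0 < (η / 2) ^ 2 := by positivity
      linarith)
  let V : Submodule ℝ H := Submodule.span ℝ (Set.range e)
  have : FiniteDimensional ℝ V := FiniteDimensional.span_of_finite ℝ (Set.finite_range e)
  have hsmall : ∀ x ∈ Vᗮ, ‖T x‖ ≤ η / 2 * ‖x‖ := by
    intro x hx
    rcases eq_or_ne x 0 with rfl | hx0
    · simp
    have hn : 0 < ‖x‖ := norm_pos_iff.mpr hx0
    have hy : Orthonormal ℝ (Matrix.vecCons (‖x‖⁻¹ • x) e) := by
      rw [orthonormal_vecCons_iff]
      refine ⟨by rw [norm_smul, norm_inv, norm_norm, inv_mul_cancel₀ hn.ne'], fun i => ?_, he⟩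
      rw [inner_smul_left, Submodule.inner_left_of_mem_orthogonal
        (Submodule.subset_span (Set.mem_range_self i)) hx, mul_zero]
    have h1 : _ ≤ sSup A := le_csSup hb ⟨_, _, hy, rfl⟩
    rw [Fin.sum_univ_succ] at h1
    simp only [Matrix.cons_val_zero, Matrix.cons_val_succ] at h1
    have h2 : ‖T (‖x‖⁻¹ • x)‖ ≤ η / 2 := by
      refine abs_le_of_sq_le_sq' (by linarith) (by positivity) |>.2
    rw [map_smul, norm_smul, norm_inv, norm_norm, inv_mul_le_iff₀ hn] at h2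
    linarith
  refine ⟨T ∘L V.starProjection, ?_, ?_⟩
  · exact (isCompactOperator_of_locallyCompactSpace_rng (T ∘L V.subtypeL)).comp_clm
      V.orthogonalProjectionOnto
  · rw [dist_eq_norm]
    refine lt_of_le_of_lt (ContinuousLinearMap.opNorm_le_bound _ (by positivity : 0 ≤ η / 2)
      fun x => ?_) (by linarith)
    have h1 := hsmall _ (V.sub_starProjection_mem_orthogonal x)
    rw [map_sub] at h1
    refine h1.trans (mul_le_mul_of_nonneg_left ?_ (by positivity))
    rw [← V.starProjection_orthogonal_val]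
    exact Vᗮ.norm_starProjection_apply_le x

/- the subspace fixed by the kernel -/
def fixedSub (π : G →* (H →ₗᵢ[ℝ] H)) : Submodule ℝ H where
  carrier := {x | ∀ g, InKer g → π g x = x}
  add_mem' := fun hx hy g hg => by rw [map_add, hx g hg, hy g hg]
  zero_mem' := fun g _ => map_zero _
  smul_mem' := fun c x hx g hg => by rw [map_smul, hx g hg]

theorem fixedSub_closed (π : G →* (H →ₗᵢ[ℝ] H)) : IsClosed (fixedSub π : Set H) := by
  have : (fixedSub π : Set H) = ⋂ g, ⋂ (_ : InKer g), {x | π g x = x} := by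
    ext x; simp only [Set.mem_iInter]; rfl
  rw [this]
  exact isClosed_iInter fun g => isClosed_iInter fun _ =>
    isClosed_eq (π g).continuous continuous_id

theorem fixedSub_inv (π : G →* (H →ₗᵢ[ℝ] H)) (t : G) {x : H} (hx : x ∈ fixedSub π) :
    π t x ∈ fixedSub π := by
  intro g hg
  have := hx _ (hg.conj t⁻¹)
  rw [← rep_mul]
  conv_rhs => rw [← this, ← rep_mul]
  congr 2
  group

theorem fixedSub_orth_inv (π : G →* (H →ₗᵢ[ℝ] H)) (t : G) {x : H} (hx : x ∈ (fixedSub π)ᗮ) :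
    π t x ∈ (fixedSub π)ᗮ := by
  rw [Submodule.mem_orthogonal'] at hx ⊢
  intro y hy
  rw [rep_inner_left]
  exact hx _ (fixedSub_inv π _ hy)

theorem mean_zero [DecidableEq G] [CompleteSpace H] (π : G →* (H →ₗᵢ[ℝ] H)) {F : ℕ → Finset G}
    (hF : IsFolner F) {w : H} (hw : w ∈ (fixedSub π)ᗮ) (x : H) :
    Tendsto (fun n => (∑ h ∈ F n, ⟪π h w, x⟫ * ⟪π h w, x⟫) / (F n).card)
      (hyperfilter ℕ) (𝓝 0) := by
  let Bn : ℕ → H →ₗ[ℝ] H →ₗ[ℝ] ℝ := fun n => LinearMap.mk₂ ℝ
    (fun x y => (∑ h ∈ F n, ⟪π h w, x⟫ * ⟪π h w, y⟫) / (F n).card)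
    (fun x y z => by simp only [inner_add_right, add_mul, Finset.sum_add_distrib, add_div])
    (fun c x z => by
      simp only [inner_smul_right, mul_assoc, ← Finset.mul_sum, smul_eq_mul, mul_div_assoc])
    (fun x y z => by simp only [inner_add_right, mul_add, Finset.sum_add_distrib, add_div])
    (fun c x z => by
      simp only [inner_smul_right, mul_left_comm _ c, ← Finset.mul_sum, smul_eq_mul,
        mul_div_assoc])
  have hb : ∀ (h : G) (x y : H), |⟪π h w, x⟫ * ⟪π h w, y⟫| ≤ ‖w‖ ^ 2 * ‖x‖ * ‖y‖ := by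
    intro h x y
    rw [abs_mul]
    have h1 := abs_real_inner_le_norm (π h w) x
    have h2 := abs_real_inner_le_norm (π h w) y
    rw [(π h).norm_map] at h1 h2
    calc _ ≤ (‖w‖ * ‖x‖) * (‖w‖ * ‖y‖) := mul_le_mul h1 h2 (abs_nonneg _) (by positivity)
      _ = _ := by ring
  have hBn : ∀ n x y, |Bn n x y| ≤ ‖w‖ ^ 2 * ‖x‖ * ‖y‖ := fun n x y =>
    abs_avg_le _ _ _ (by positivity) fun h => hb h x y
  obtain ⟨B, hB⟩ := exists_ulim_bilin (hyperfilter ℕ) Bn fun x y => ⟨_, fun n => hBn n x y⟩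
  have hBb : ∀ x y, ‖B x y‖ ≤ ‖w‖ ^ 2 * ‖x‖ * ‖y‖ := fun x y =>
    le_of_tendsto' (hB x y).abs fun n => hBn n x y
  let T : H →L[ℝ] H :=
    InnerProductSpace.continuousLinearMapOfBilin (𝕜 := ℝ) (B.mkContinuous₂ _ hBb)
  have hT : ∀ x y, ⟪T x, y⟫ = B x y := fun x y =>
    InnerProductSpace.continuousLinearMapOfBilin_apply _ x y
  have hsymm : ∀ x y, B x y = B y x := fun x y =>
    tendsto_nhds_unique (hB x y) ((hB y x).congr fun n => by
      simp only [Bn, LinearMap.mk₂_apply, mul_comm])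
  have hpos : ∀ x, 0 ≤ B x x := fun x =>
    ge_of_tendsto' (hB x x) fun n =>
      div_nonneg (Finset.sum_nonneg fun h _ => mul_self_nonneg _) (Nat.cast_nonneg _)
  have hTs : (T : H →ₗ[ℝ] H).IsSymmetric := fun x y => by
    change ⟪T x, y⟫ = ⟪x, T y⟫
    rw [hT, real_inner_comm, hT, hsymm]
  have hinv : ∀ t x y, B (π t x) y = B x (π t⁻¹ y) := by
    intro t x y
    refine tendsto_nhds_unique (hB _ _) ?_
    have h1 : Tendsto (fun n => Bn n (π t x) y - Bn n x (π t⁻¹ y)) (hyperfilter ℕ) (𝓝 0) := by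
      refine Tendsto.mono_left ?_ Nat.hyperfilter_le_atTop
      refine squeeze_zero_norm (fun n => ?_)
        (by simpa using (hF.defect t⁻¹).const_mul (‖w‖ ^ 2 * ‖x‖ * ‖π t⁻¹ y‖))
      have := avg_shift_le (F n) t⁻¹ (fun h => ⟪π h w, x⟫ * ⟪π h w, π t⁻¹ y⟫) _
        fun h => hb h x (π t⁻¹ y)
      simp only [rep_mul, LinearIsometry.inner_map_map] at this
      simp only [rep_inner_left π t⁻¹, inv_inv] at this
      simpa [Bn] using this
    simpa using h1.add (hB x (π t⁻¹ y))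
  have hcomm : ∀ t x, T (π t x) = π t (T x) := fun t x =>
    ext_inner_right ℝ fun y => by rw [hT, hinv, rep_inner_left, hT]
  have hrange : ∀ x, T x ∈ (fixedSub π)ᗮ := by
    intro x
    rw [Submodule.mem_orthogonal']
    intro y hy
    rw [hT]
    refine tendsto_nhds_unique (hB x y) (tendsto_const_nhds.congr fun n => ?_)
    have : ∀ h, ⟪π h w, y⟫ = 0 := fun h =>
      Submodule.inner_left_of_mem_orthogonal hy (fixedSub_orth_inv π h hw)
    simp [Bn, this]
  have hcpt : IsCompactOperator T := by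
    refine compact_of_trace T (‖w‖ ^ 2 * ‖w‖ ^ 2) fun m e he => ?_
    have h1 : ∀ x, ‖T x‖ ^ 2 ≤ ‖w‖ ^ 2 * B x x := by
      intro x
      have h2 := LinearMap.BilinForm.apply_sq_le_of_symm B hpos ⟨fun x y => hsymm x y⟩ x (T x)
      have h3 : B (T x) (T x) ≤ ‖w‖ ^ 2 * ‖T x‖ * ‖T x‖ := (le_abs_self _).trans (hBb _ _)
      rw [← hT x (T x), real_inner_self_eq_norm_sq] at h2
      rcases eq_or_lt_of_le (sq_nonneg ‖T x‖) with h0 | h0
      · rw [← h0]; exact mul_nonneg (sq_nonneg _) (hpos x)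
      have h4 := mul_le_mul_of_nonneg_left h3 (hpos x)
      refine le_of_mul_le_mul_right ?_ h0
      nlinarith
    have h2 : ∑ i, B (e i) (e i) ≤ ‖w‖ ^ 2 := by
      refine le_of_tendsto' (tendsto_finsetSum Finset.univ fun i _ => hB (e i) (e i)) fun n => ?_
      simp only [Bn, LinearMap.mk₂_apply]
      rw [← Finset.sum_div, Finset.sum_comm]
      refine (le_abs_self _).trans (abs_avg_le _ _ _ (sq_nonneg _) fun h => ?_)
      rw [abs_of_nonneg (Finset.sum_nonneg fun i _ => mul_self_nonneg _)]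
      have := he.sum_inner_products_le (s := Finset.univ) (π h w)
      rw [(π h).norm_map] at this
      refine le_trans (le_of_eq (Finset.sum_congr rfl fun i _ => ?_)) this
      rw [Real.norm_eq_abs, sq_abs, real_inner_comm, sq]
    refine (Finset.sum_le_sum fun i _ => h1 (e i)).trans ?_
    rw [← Finset.mul_sum]
    exact mul_le_mul_of_nonneg_left h2 (sq_nonneg _)
  have hT0 : T = 0 := by
    rw [← ContinuousLinearMap.eq_zero_of_forall_hasEigenvalue_eq_zero hcpt hTs]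
    intro μ hμ
    by_contra hμ0
    have := ContinuousLinearMap.finite_dimensional_eigenspace hcpt μ hμ0
    obtain ⟨v, hv, hv0⟩ := hμ.exists_hasEigenvector
    have hfix : v ∈ fixedSub π := fun g hg =>
      fd_triv π (Module.End.eigenspace T.toLinearMap μ) (fun t x hx => by
        rw [Module.End.mem_eigenspace_iff] at hx ⊢
        change T (π t x) = _
        rw [hcomm, ← map_smul, ← hx]
        rfl) hg v hv
    have h1 : T v = μ • v := Module.End.mem_eigenspace_iff.mp hv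
    have h2 := Submodule.inner_left_of_mem_orthogonal hfix (hrange v)
    rw [h1, inner_smul_left, inner_self_eq_norm_sq_to_K] at h2
    simp [hμ0, hv0] at h2
  have := hB x x
  rw [← hT, hT0] at this
  simpa [Bn] using this

theorem exists_almost_orth [DecidableEq G] [CompleteSpace H] (π : G →* (H →ₗᵢ[ℝ] H))
    {F : ℕ → Finset G} (hF : IsFolner F) {w : H} (hw : w ∈ (fixedSub π)ᗮ) {η : ℝ} (hη : 0 < η) :
    ∃ h : ℕ → G, ∀ i j, i ≠ j → |⟪π (h i) w, π (h j) w⟫| < η := by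
  have : Std.Symm fun a b : G => |⟪π a w, π b w⟫| < η := ⟨fun a b h => by rwa [real_inner_comm]⟩
  obtain ⟨f, -, hf⟩ := exists_seq_of_forall_finset_exists' (fun _ : G => True)
    (fun a b : G => |⟪π a w, π b w⟫| < η) (by
      intro s _
      have h1 := tendsto_finsetSum s fun a _ => mean_zero π hF hw (π a w)
      rw [Finset.sum_const_zero] at h1
      obtain ⟨n, hn⟩ := (h1.eventually (gt_mem_nhds (mul_pos hη hη))).exists
      have hpos : (0 : ℝ) < (F n).card := by exact_mod_cast (hF.1 n).card_pos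
      rw [← Finset.sum_div, Finset.sum_comm, div_lt_iff₀ hpos] at hn
      obtain ⟨y, -, hy⟩ := Finset.exists_lt_of_sum_lt (g := fun _ => η * η) (s := F n)
        (hn.trans_eq (by rw [Finset.sum_const, nsmul_eq_mul, mul_comm]))
      refine ⟨y, trivial, fun a ha => ?_⟩
      have h2 := (Finset.single_le_sum (f := fun a => ⟪π y w, π a w⟫ * ⟪π y w, π a w⟫)
        (fun a _ => mul_self_nonneg _) ha).trans_lt hy
      rw [real_inner_comm]
      exact abs_lt_of_sq_lt_sq (by rw [sq, sq]; exact h2) hη.le)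
  exact ⟨f, fun i j hij => hf hij⟩

end Pool.Agent.P.MP_0c3bbf_an
end

-- part Pool.Agent.P.MP_0c3bbf_an.Core
section

namespace Pool.Agent.P.MP_0c3bbf_an

open Filter Topology
open scoped RealInnerProductSpace

section finite

variable {H : Type} [NormedAddCommGroup H] [InnerProductSpace ℝ H]

theorem sum_inner_sq_le {L : ℕ} (w : Fin L → H) (M η : ℝ) (hη : 0 ≤ η) (hM : ∀ i, ‖w i‖ = M)
    (hw : ∀ i j, i ≠ j → |⟪w i, w j⟫| ≤ η) (e : H) (he : ‖e‖ = 1) :
    ∑ i, ⟪e, w i⟫ ^ 2 ≤ M ^ 2 + η * L := by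
  set a : Fin L → ℝ := fun i => ⟪e, w i⟫ with ha
  set S := ∑ i, a i ^ 2 with hS
  have hS0 : 0 ≤ S := Finset.sum_nonneg fun i _ => sq_nonneg _
  have h1 : S ≤ ‖∑ i, a i • w i‖ := by
    have : S = ⟪e, ∑ i, a i • w i⟫ := by
      rw [inner_sum]
      exact Finset.sum_congr rfl fun i _ => by rw [inner_smul_right, sq]
    rw [this]
    exact (real_inner_le_norm _ _).trans (by rw [he, one_mul])
  have h2 : ‖∑ i, a i • w i‖ ^ 2 ≤ (M ^ 2 + η * L) * S := by
    rw [← real_inner_self_eq_norm_sq, sum_inner]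
    simp only [inner_sum, inner_smul_left, inner_smul_right, conj_trivial]
    have h3 : ∀ i j, a j * (a i * ⟪w i, w j⟫) ≤
        (if i = j then M ^ 2 * a i ^ 2 else 0) + η * (a i ^ 2 + a j ^ 2) / 2 := by
      intro i j
      split_ifs with hij
      · subst hij
        rw [real_inner_self_eq_norm_sq, hM]
        nlinarith [mul_nonneg hη (sq_nonneg (a i))]
      · have h4 := abs_le.mp (hw i j hij)
        nlinarith [mul_nonneg (sub_nonneg.mpr h4.2) (sq_nonneg (a i + a j)),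
          mul_nonneg (neg_le_iff_add_nonneg.mp h4.1) (sq_nonneg (a i - a j))]
    refine (Finset.sum_le_sum fun i _ => Finset.sum_le_sum fun j _ => h3 i j).trans (le_of_eq ?_)
    simp only [Finset.sum_add_distrib, Finset.sum_ite_eq, Finset.mem_univ, if_true,
      ← Finset.sum_div, ← Finset.mul_sum, Finset.sum_const, Finset.card_univ, Fintype.card_fin,
      nsmul_eq_mul, ← hS]
    ring
  rcases eq_or_lt_of_le hS0 with h0 | h0
  · rw [← h0]; positivity
  refine le_of_mul_le_mul_right ?_ h0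
  nlinarith [norm_nonneg (∑ i, a i • w i)]

theorem sum_inner_le {L : ℕ} (hL : 0 < L) (V : Submodule ℝ H) [FiniteDimensional ℝ V] {k : ℕ}
    (hk : Module.finrank ℝ V ≤ k) (y w v : Fin L → H) (M η ε : ℝ) (hη : 0 ≤ η) (hε : 0 ≤ ε)
    (hv : ∀ i, v i ∈ V) (hy : ∀ i, ‖y i‖ ≤ 1) (hM : ∀ i, ‖w i‖ = M)
    (hw : ∀ i j, i ≠ j → |⟪w i, w j⟫| ≤ η) (hyv : ∑ i, ‖y i - v i‖ ^ 2 ≤ L * ε ^ 2) :
    ∑ i, ⟪y i, w i⟫ ≤ L * (ε * M + √(k * (M ^ 2 / L + η))) := by
  have : CompleteSpace V := FiniteDimensional.complete ℝ V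
  have hL' : (0 : ℝ) < L := by exact_mod_cast hL
  have hM0 : 0 ≤ M := hM ⟨0, hL⟩ ▸ norm_nonneg _
  have h1 : ∀ i, ⟪y i, w i⟫ ≤ ‖y i - v i‖ * M + ‖V.starProjection (w i)‖ := by
    intro i
    have h2 : ⟪y i, w i⟫ = ⟪y i - v i, w i - V.starProjection (w i)⟫ +
        ⟪y i, V.starProjection (w i)⟫ := by
      rw [inner_sub_left, Submodule.inner_right_of_mem_orthogonal (hv i)
        (V.sub_starProjection_mem_orthogonal _), inner_sub_right]
      ring
    rw [h2]
    refine add_le_add ((real_inner_le_norm _ _).trans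
      (mul_le_mul_of_nonneg_left ?_ (norm_nonneg _))) ((real_inner_le_norm _ _).trans ?_)
    · rw [← V.starProjection_orthogonal_val, ← hM i]
      exact Vᗮ.norm_starProjection_apply_le _
    · exact mul_le_of_le_one_left (norm_nonneg _) (hy i)
  have h2 : ∑ i, ‖y i - v i‖ ≤ L * ε := by
    refine abs_le_of_sq_le_sq' ?_ (by positivity) |>.2
    refine sq_sum_le_card_mul_sum_sq.trans ?_
    rw [Finset.card_univ, Fintype.card_fin]
    nlinarith
  have h3 : ∑ i, ‖V.starProjection (w i)‖ ^ 2 ≤ k * (M ^ 2 + η * L) := by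
    let b := stdOrthonormalBasis ℝ V
    have h4 : ∀ x, ‖V.starProjection x‖ ^ 2 = ∑ a, ⟪(b a : H), x⟫ ^ 2 := by
      intro x
      have := b.sum_sq_inner_right (V.orthogonalProjectionOnto x)
      rw [show ‖V.starProjection x‖ = ‖V.orthogonalProjectionOnto x‖ from rfl, ← this]
      refine Finset.sum_congr rfl fun a _ => ?_
      rw [Submodule.inner_orthogonalProjectionOnto_eq_of_mem_left]
    simp only [h4]
    rw [Finset.sum_comm]
    refine (Finset.sum_le_card_nsmul _ _ (M ^ 2 + η * L) fun a _ =>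
      sum_inner_sq_le w M η hη hM hw _ (b.orthonormal.norm_eq_one a)).trans ?_
    rw [Finset.card_univ, Fintype.card_fin, nsmul_eq_mul]
    exact mul_le_mul_of_nonneg_right (by exact_mod_cast hk) (by positivity)
  have h4 : ∑ i, ‖V.starProjection (w i)‖ ≤ L * √(k * (M ^ 2 / L + η)) := by
    refine abs_le_of_sq_le_sq' ?_ (by positivity) |>.2
    refine sq_sum_le_card_mul_sum_sq.trans ?_
    rw [Finset.card_univ, Fintype.card_fin, mul_pow, Real.sq_sqrt (by positivity)]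
    refine (mul_le_mul_of_nonneg_left h3 hL'.le).trans (le_of_eq ?_)
    field_simp
  refine (Finset.sum_le_sum fun i _ => h1 i).trans ?_
  rw [Finset.sum_add_distrib, ← Finset.sum_mul]
  nlinarith [mul_le_mul_of_nonneg_right h2 hM0]

variable {G : Type} [Group G] [DecidableEq G]

theorem finite_level (π : G →* (H →ₗᵢ[ℝ] H)) (f : H) (V : Submodule ℝ H) [FiniteDimensional ℝ V]
    (v : G → H) {k : ℕ} (hk : Module.finrank ℝ V ≤ k) (hf : ‖f‖ ≤ 1) (hv : ∀ g, v g ∈ V)
    (hv1 : ∀ g, ‖v g‖ ≤ 1) {S : Finset G} (hS : S.Nonempty) {ε ε' η : ℝ} (hε' : 0 ≤ ε')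
    (hη : 0 ≤ η) (happ : (∑ g ∈ S, ‖π g⁻¹ f - v g‖ ^ 2) / S.card ≤ ε ^ 2)
    {L : ℕ} (hL : 0 < L) (h : Fin L → G)
    (hdef : ∀ i, 4 * defect S (h i)⁻¹ ≤ ε' ^ 2 - ε ^ 2) (u : H)
    (hu : ∀ i j, i ≠ j → |⟪π (h i) u, π (h j) u⟫| ≤ η) :
    ⟪f, u⟫ ≤ ε' * ‖u‖ + √(k * (‖u‖ ^ 2 / L + η)) := by
  have hL' : (0 : ℝ) < L := by exact_mod_cast hL
  have hpos : (0 : ℝ) < S.card := by exact_mod_cast hS.card_pos
  let a : G → ℝ := fun g => ‖π g⁻¹ f - v g‖ ^ 2
  have ha : ∀ g, |a g| ≤ 4 := by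
    intro g
    have h1 := norm_sub_le (π g⁻¹ f) (v g)
    rw [(π g⁻¹).norm_map] at h1
    rw [abs_of_nonneg (sq_nonneg _)]
    nlinarith [norm_nonneg (π g⁻¹ f - v g), hv1 g]
  have h1 : ∀ i, ∑ g ∈ S, a ((h i)⁻¹ * g) ≤ S.card * ε' ^ 2 := by
    intro i
    have := (abs_le.mp (avg_shift_le S (h i)⁻¹ a 4 ha)).2
    rw [mul_comm, ← div_le_iff₀ hpos]
    linarith [hdef i]
  obtain ⟨g, -, hg⟩ := Finset.exists_le_of_sum_le (f := fun g => ∑ i, a ((h i)⁻¹ * g))
    (g := fun _ => (L : ℝ) * ε' ^ 2) hS (by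
      rw [Finset.sum_comm]
      refine (Finset.sum_le_sum fun i _ => h1 i).trans (le_of_eq ?_)
      simp only [Finset.sum_const, Finset.card_univ, Fintype.card_fin, nsmul_eq_mul]
      ring)
  have h2 := sum_inner_le hL V hk (fun i => π g⁻¹ (π (h i) f)) (fun i => π g⁻¹ (π (h i) u))
    (fun i => v ((h i)⁻¹ * g)) ‖u‖ η ε' hη hε' (fun i => hv _)
    (fun i => by rwa [(π _).norm_map, (π _).norm_map])
    (fun i => by rw [(π _).norm_map, (π _).norm_map])
    (fun i j hij => by rw [(π _).inner_map_map]; exact hu i j hij)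
    (by simpa only [a, mul_inv_rev, inv_inv, rep_mul] using hg)
  simp only [LinearIsometry.inner_map_map, Finset.sum_const, Finset.card_univ, Fintype.card_fin,
    nsmul_eq_mul] at h2
  exact le_of_mul_le_mul_left h2 hL'

end finite

theorem gns {E : Type} [AddCommGroup E] [Module ℝ E] (B : E →ₗ[ℝ] E →ₗ[ℝ] ℝ)
    (hsymm : ∀ a b, B a b = B b a) (hpos : ∀ a, 0 ≤ B a a) :
    ∃ (H : Type) (_ : NormedAddCommGroup H) (_ : InnerProductSpace ℝ H) (_ : CompleteSpace H)
      (ι : E →ₗ[ℝ] H), DenseRange ι ∧ ∀ a b, ⟪ι a, ι b⟫ = B a b := by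
  let c : PreInnerProductSpace.Core ℝ E :=
    { inner := fun a b => B a b
      conj_inner_symm := fun a b => by simpa using hsymm b a
      re_inner_nonneg := fun a => by simpa using hpos a
      add_left := fun a b c => by simp
      smul_left := fun a b c => by simp }
  let : SeminormedAddCommGroup E := InnerProductSpace.Core.toSeminormedAddCommGroup (𝕜 := ℝ)
  let : InnerProductSpace ℝ E := .ofCore _
  refine ⟨UniformSpace.Completion E, inferInstance, inferInstance, inferInstance,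
    (UniformSpace.Completion.toComplₗᵢ (𝕜 := ℝ) (E := E)).toLinearMap,
    UniformSpace.Completion.denseRange_coe, fun a b => ?_⟩
  exact UniformSpace.Completion.inner_coe a b

variable {G : Type} [Group G] [DecidableEq G]

/- the conclusion in the limit space -/
theorem limit_level {H : Type} [NormedAddCommGroup H] [InnerProductSpace ℝ H] [CompleteSpace H]
    (π : G →* (H →ₗᵢ[ℝ] H)) {F : ℕ → Finset G} (hF : IsFolner F) {g0 : G} (hg : InKer g0) (f : H)
    (k : ℕ) {ε : ℝ} (hε : 0 ≤ ε)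
    (h : ∀ (η : ℝ), 0 < η → ∀ (L : ℕ), 0 < L → ∀ (h : Fin L → G) (u : H),
      (∀ i j, i ≠ j → |⟪π (h i) u, π (h j) u⟫| < η) →
      ⟪f, u⟫ ≤ ε * ‖u‖ + √(k * (‖u‖ ^ 2 / L + η))) :
    ‖π g0 f - f‖ ≤ 2 * ε := by
  have : CompleteSpace (fixedSub π) := (fixedSub_closed π).completeSpace_coe
  set c := (fixedSub π).starProjection f with hc
  set w := f - c with hw
  have hw' : w ∈ (fixedSub π)ᗮ := (fixedSub π).sub_starProjection_mem_orthogonal f
  have hc' : c ∈ fixedSub π := (fixedSub π).starProjection_apply_mem f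
  have h1 : ⟪f, w⟫ = ‖w‖ ^ 2 := by
    have : f = c + w := by rw [hw]; abel
    conv_lhs => rw [this]
    rw [inner_add_left, Submodule.inner_right_of_mem_orthogonal hc' hw', zero_add,
      real_inner_self_eq_norm_sq]
  have h2 : ‖w‖ ^ 2 ≤ ε * ‖w‖ := by
    have h3 : Tendsto (fun L : ℕ => ε * ‖w‖ + √(k * (‖w‖ ^ 2 / ((L + 1 : ℕ) : ℝ) +
        1 / ((L + 1 : ℕ) : ℝ)))) atTop (𝓝 (ε * ‖w‖ + √(k * (0 + 0)))) := by
      refine tendsto_const_nhds.add (Tendsto.sqrt (Tendsto.const_mul _ (Tendsto.add ?_ ?_)))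
      · exact (tendsto_const_div_atTop_nhds_zero_nat _).comp (tendsto_add_atTop_nat 1)
      · exact (tendsto_const_div_atTop_nhds_zero_nat _).comp (tendsto_add_atTop_nat 1)
    simp only [add_zero, mul_zero, Real.sqrt_zero] at h3
    refine ge_of_tendsto' h3 fun L => ?_
    have hη : (0 : ℝ) < 1 / ((L + 1 : ℕ) : ℝ) := by positivity
    obtain ⟨s, hs⟩ := exists_almost_orth π hF hw' hη
    exact h1.symm.trans_le (h _ hη (L + 1) (Nat.succ_pos L) (fun i => s i) w
      fun i j hij => hs i j fun h => hij (Fin.ext h))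
  have h3 : ‖w‖ ≤ ε := by
    rcases eq_or_lt_of_le (norm_nonneg w) with h0 | h0
    · rw [← h0]; exact hε
    exact le_of_mul_le_mul_right (by nlinarith) h0
  have h4 : π g0 f - f = π g0 w - w := by
    rw [hw, map_sub, hc' g0 hg]; abel
  rw [h4]
  refine (norm_sub_le _ _).trans ?_
  rw [(π g0).norm_map]
  linarith

theorem core {F : ℕ → Finset G} (hF : IsFolner F) {g0 : G} (hg : InKer g0) (k : ℕ) {ε : ℝ}
    (hε : 0 < ε) :
    ∀ᶠ n in atTop, ∀ (H : Type) [NormedAddCommGroup H] [InnerProductSpace ℝ H]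
      (π : G →* (H →ₗᵢ[ℝ] H)) (f : H) (V : Submodule ℝ H) [FiniteDimensional ℝ V] (v : G → H),
      Module.finrank ℝ V ≤ k → ‖f‖ ≤ 1 → (∀ g, v g ∈ V) → (∀ g, ‖v g‖ ≤ 1) →
      (∑ g ∈ F n, ‖π g⁻¹ f - v g‖ ^ 2) / (F n).card ≤ ε ^ 2 → ‖π g0 f - f‖ ≤ 5 * ε := by
  by_contra hcon
  rw [not_eventually] at hcon
  obtain ⟨φ, hφ, hcon⟩ := extraction_of_frequently_atTop hcon
  simp only [not_forall, not_le] at hcon
  choose H iH1 iH2 π f V iV v hk hf hv hv1 happ hbig using hcon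
  have hF' := hF.comp hφ.tendsto_atTop
  let Λ : ∀ n, (G →₀ ℝ) →ₗ[ℝ] H n := fun n => Finsupp.linearCombination ℝ fun g => π n g (f n)
  let τ : G → (G →₀ ℝ) ≃ₗ[ℝ] (G →₀ ℝ) := fun g => Finsupp.domLCongr (Equiv.mulLeft g)
  have hτ : ∀ g h c, τ g (Finsupp.single h c) = Finsupp.single (g * h) c := fun g h c => by
    simp [τ]
  have hΛ1 : ∀ n g c, Λ n (Finsupp.single g c) = c • π n g (f n) := fun n g c => by simp [Λ]
  have hΛτ : ∀ n g a, Λ n (τ g a) = π n g (Λ n a) := by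
    intro n g a
    induction a using Finsupp.induction_linear with
    | zero => simp
    | add a b ha hb => simp only [map_add, ha, hb]
    | single h c => rw [hτ, hΛ1, hΛ1, map_smul, rep_mul]
  have hΛb : ∀ a, ∃ C, ∀ n, ‖Λ n a‖ ≤ C := by
    intro a
    induction a using Finsupp.induction_linear with
    | zero => exact ⟨0, by simp⟩
    | add a b ha hb =>
      obtain ⟨C, hC⟩ := ha
      obtain ⟨D, hD⟩ := hb
      exact ⟨C + D, fun n => by
        rw [map_add]; exact (norm_add_le _ _).trans (add_le_add (hC n) (hD n))⟩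
    | single h c =>
      exact ⟨‖c‖, fun n => by
        rw [hΛ1, norm_smul, (π n h).norm_map]
        exact mul_le_of_le_one_right (norm_nonneg _) (hf n)⟩
  let Bn : ℕ → (G →₀ ℝ) →ₗ[ℝ] (G →₀ ℝ) →ₗ[ℝ] ℝ := fun n =>
    (innerₗ (H n)).compl₁₂ (Λ n) (Λ n)
  have hBn : ∀ n a b, Bn n a b = ⟪Λ n a, Λ n b⟫ := fun n a b => rfl
  obtain ⟨B, hB⟩ := exists_ulim_bilin (hyperfilter ℕ) Bn fun a b => by
    obtain ⟨C, hC⟩ := hΛb a
    obtain ⟨D, hD⟩ := hΛb b
    exact ⟨C * D, fun n => (abs_real_inner_le_norm _ _).trans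
      (mul_le_mul (hC n) (hD n) (norm_nonneg _) ((norm_nonneg _).trans (hC n)))⟩
  simp only [hBn] at hB
  obtain ⟨K, iK1, iK2, iK3, ι, hι, hιB⟩ := gns B
    (fun a b => tendsto_nhds_unique (hB a b) ((hB b a).congr fun n => real_inner_comm _ _))
    (fun a => ge_of_tendsto' (hB a a) fun n => real_inner_self_nonneg)
  have hnorm : ∀ a, Tendsto (fun n => ‖Λ n a‖) (hyperfilter ℕ) (𝓝 ‖ι a‖) := by
    intro a
    have := (hB a a).sqrt
    rw [← hιB, real_inner_self_eq_norm_sq, Real.sqrt_sq (norm_nonneg _)] at this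
    simpa only [real_inner_self_eq_norm_sq, Real.sqrt_sq (norm_nonneg _)] using this
  have hiso : ∀ g a, ‖ι (τ g a)‖ = ‖ι a‖ := fun g a =>
    tendsto_nhds_unique (hnorm _) ((hnorm a).congr fun n => by rw [hΛτ, (π n g).norm_map])
  let ρ0 : G → K →ₗᵢ[ℝ] K := fun g =>
    ((τ g).extendOfIsometry ι ι hι hι (hiso g)).toLinearIsometry
  have hρ0 : ∀ g a, ρ0 g (ι a) = ι (τ g a) := fun g a =>
    LinearEquiv.extendOfIsometry_eq _ _ _ hι hι (hiso g) a
  have hτ1 : ∀ a, τ 1 a = a := by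
    intro a
    induction a using Finsupp.induction_linear with
    | zero => simp
    | add a b ha hb => simp only [map_add, ha, hb]
    | single h c => rw [hτ, one_mul]
  have hτm : ∀ g g' a, τ (g * g') a = τ g (τ g' a) := by
    intro g g' a
    induction a using Finsupp.induction_linear with
    | zero => simp
    | add a b ha hb => simp only [map_add, ha, hb]
    | single h c => rw [hτ, hτ, hτ, mul_assoc]
  let ρ : G →* (K →ₗᵢ[ℝ] K) :=
    { toFun := ρ0
      map_one' := by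
        ext x
        exact hι.induction_on x (isClosed_eq (ρ0 1).continuous continuous_id)
          fun a => by rw [hρ0, hτ1]; rfl
      map_mul' := fun g g' => by
        ext x
        exact hι.induction_on x
          (isClosed_eq (ρ0 _).continuous ((ρ0 g).continuous.comp (ρ0 g').continuous))
          fun a => by rw [hρ0, hτm, ← hρ0, ← hρ0]; rfl }
  have hρ : ∀ g a, ρ g (ι a) = ι (τ g a) := hρ0
  let d : G →₀ ℝ := Finsupp.single 1 1
  have hd : ∀ n, Λ n d = f n := fun n => by rw [hΛ1, one_smul, rep_one]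
  have key := limit_level ρ hF hg (ι d) k (ε := 2 * ε) (by positivity) (by
    intro η hη L hL h u hu
    have h1 : ∀ a, (∀ i j, i ≠ j → |⟪ρ (h i) (ι a), ρ (h j) (ι a)⟫| < η) →
        ⟪ι d, ι a⟫ ≤ 2 * ε * ‖ι a‖ + √(k * (‖ι a‖ ^ 2 / L + η)) := by
      intro a ha
      rw [hιB]
      refine le_of_tendsto_of_tendsto (hB d a) (((hnorm a).const_mul _).add
        (Tendsto.sqrt (Tendsto.const_mul _ ((((hnorm a).pow 2).div_const _).add_const _)))) ?_
      have e1 : ∀ᶠ n in (hyperfilter ℕ : Filter ℕ), ∀ i,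
          4 * defect (F (φ n)) (h i)⁻¹ ≤ (2 * ε) ^ 2 - ε ^ 2 := by
        rw [eventually_all]
        intro i
        refine Nat.hyperfilter_le_atTop ?_
        have := (hF'.defect (h i)⁻¹).const_mul 4
        rw [mul_zero] at this
        exact this.eventually (ge_mem_nhds (by nlinarith))
      have e2 : ∀ᶠ n in (hyperfilter ℕ : Filter ℕ), ∀ i j, i ≠ j →
          |⟪π n (h i) (Λ n a), π n (h j) (Λ n a)⟫| ≤ η := by
        simp only [eventually_all]
        intro i j hij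
        have := ha i j hij
        rw [hρ, hρ, hιB] at this
        simp only [← hΛτ]
        exact (hB _ _).abs.eventually (ge_mem_nhds this)
      filter_upwards [e1, e2] with n h1 h2
      rw [hd]
      exact finite_level (π n) (f n) (V n) (v n) (hk n) (hf n) (hv n) (hv1 n) (hF.1 _)
        (by positivity) hη.le (happ n) hL h h1 _ h2
    obtain ⟨s, hs, hs'⟩ := mem_closure_iff_seq_limit.mp (hι u)
    choose a ha using hs
    refine le_of_tendsto_of_tendsto (tendsto_const_nhds.inner hs') ((hs'.norm.const_mul _).add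
      (Tendsto.sqrt (Tendsto.const_mul _ (((hs'.norm.pow 2).div_const _).add_const _)))) ?_
    have e1 : ∀ᶠ n in atTop, ∀ i j, i ≠ j → |⟪ρ (h i) (s n), ρ (h j) (s n)⟫| < η := by
      simp only [eventually_all]
      intro i j hij
      exact ((((ρ (h i)).continuous.tendsto u).comp hs').inner
        (((ρ (h j)).continuous.tendsto u).comp hs')).abs.eventually (gt_mem_nhds (hu i j hij))
    filter_upwards [e1] with n hn
    rw [← ha n] at hn ⊢
    exact h1 _ hn)
  have h2 := hnorm (τ g0 d - d)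
  rw [map_sub, ← hρ] at h2
  have h3 : 5 * ε ≤ ‖ρ g0 (ι d) - ι d‖ := ge_of_tendsto' h2 fun n => by
    rw [map_sub, hΛτ, hd]; exact (hbig n).le
  linarith

end Pool.Agent.P.MP_0c3bbf_an
end

-- part Pool.Agent.P.MP_0c3bbf_an.Haar
section

namespace Pool.Agent.P.MP_0c3bbf_an

open MeasureTheory Filter Topology

theorem free_compact_of_hom {G : Type} [Group G] (K : Type) [Group K] [TopologicalSpace K]
    [IsTopologicalGroup K] [CompactSpace K] [T2Space K] [SecondCountableTopology K] (σ : G →* K)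
    (hσ : ∀ g, σ g = 1 → g = 1) :
    ∃ (X : Type) (_ : MeasurableSpace X) (_ : StandardBorelSpace X) (μ : Measure X)
      (_ : IsProbabilityMeasure μ) (_ : MulAction G X) (_ : MeasurableConstSMul G X)
      (_ : SMulInvariantMeasure G X μ), EssFree G μ ∧ IsCompactAction G μ := by
  borelize K
  have : TopologicalSpace.MetrizableSpace K := inferInstance
  have : PolishSpace K := by
    let _ := TopologicalSpace.metrizableSpaceMetric K
    infer_instance
  let μ : Measure K := Measure.haarMeasure ⊤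
  have : IsProbabilityMeasure μ := ⟨by
    have := Measure.haarMeasure_self (G := K) (K₀ := ⊤)
    rwa [TopologicalSpace.PositiveCompacts.coe_top] at this⟩
  let act : MulAction G K := MulAction.compHom K σ
  have hsm : ∀ (g : G) (x : K), g • x = σ g * x := fun g x => rfl
  have : MeasurableConstSMul G K := ⟨fun g => measurable_const_mul (σ g)⟩
  have : SMulInvariantMeasure G K μ := ⟨fun g s _ => measure_preimage_mul μ (σ g) s⟩
  refine ⟨K, inferInstance, inferInstance, μ, inferInstance, act, inferInstance, inferInstance,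
    Eventually.of_forall fun x g hg => hσ g (by simpa [hsm] using hg), fun f => ?_⟩
  have : Fact ((2 : ENNReal) ≠ ⊤) := ⟨by simp⟩
  have hc : Continuous fun k : K => (DomMulAct.mk k • f : Lp ℂ 2 μ) :=
    DomMulAct.continuous_mk.smul continuous_const
  refine (isCompact_range hc).closure_of_subset ?_
  rintro _ ⟨g, rfl⟩
  exact ⟨σ g⁻¹, rfl⟩

theorem exists_inKer {G : Type} [Group G] [Countable G]
    (hno : ∀ (X : Type) [MeasurableSpace X] [StandardBorelSpace X] (μ : Measure X)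
      [IsProbabilityMeasure μ] [MulAction G X] [MeasurableConstSMul G X]
      [SMulInvariantMeasure G X μ], EssFree G μ → ¬ IsCompactAction G μ) :
    ∃ g : G, g ≠ 1 ∧ InKer g := by
  by_contra hcon
  have : ∀ g : {g : G // g ≠ 1}, ∃ (K : Type) (_ : Group K) (_ : TopologicalSpace K)
      (_ : IsTopologicalGroup K) (_ : CompactSpace K) (_ : T2Space K)
      (_ : SecondCountableTopology K) (σ : G →* K), σ g ≠ 1 := by
    intro g
    by_contra h
    refine hcon ⟨g, g.2, fun K _ _ _ _ _ _ σ => ?_⟩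
    by_contra h'
    exact h ⟨K, _, _, inferInstance, inferInstance, inferInstance, inferInstance, σ, h'⟩
  choose K i1 i2 i3 i4 i5 i6 σ hσ using this
  obtain ⟨X, _, _, μ, _, _, _, _, h1, h2⟩ := free_compact_of_hom (∀ g, K g) (MonoidHom.pi σ) (by
    intro g hg
    by_contra h
    exact hσ ⟨g, h⟩ (congrFun hg ⟨g, h⟩))
  exact hno X μ h1 h2

end Pool.Agent.P.MP_0c3bbf_an
end

-- part Pool.Agent.P.MP_0c3bbf_an.Main
section

namespace Pool.Agent.P.MP_0c3bbf_an

open MeasureTheory Filter Topology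
open scoped ENNReal NNReal

variable {G : Type} [Group G] {X : Type} [MeasurableSpace X] (μ : Measure X)
  [IsProbabilityMeasure μ] [MulAction G X] [MeasurableConstSMul G X] [SMulInvariantMeasure G X μ]

noncomputable def koop : G →* (Lp ℝ 2 μ →ₗᵢ[ℝ] Lp ℝ 2 μ) where
  toFun g := Lp.compMeasurePreservingₗᵢ ℝ (fun x => g⁻¹ • x) (measurePreserving_smul g⁻¹ μ)
  map_one' := by
    ext1 f
    change DomMulAct.mk (1 : G)⁻¹ • f = f
    rw [inv_one]
    exact one_smul Gᵈᵐᵃ f
  map_mul' g h := by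
    ext1 f
    change DomMulAct.mk (g * h)⁻¹ • f = DomMulAct.mk g⁻¹ • DomMulAct.mk h⁻¹ • f
    rw [← mul_smul, mul_inv_rev, DomMulAct.mk_mul]

omit [IsProbabilityMeasure μ] in
theorem koop_ae (g : G) (f : Lp ℝ 2 μ) : koop μ g f =ᵐ[μ] fun x => f (g⁻¹ • x) :=
  Lp.coeFn_compMeasurePreserving f (measurePreserving_smul g⁻¹ μ)

theorem norm_le_one_of_ae {f : Lp ℝ 2 μ} (h : ∀ᵐ x ∂μ, ‖f x‖ ≤ 1) : ‖f‖ ≤ 1 := by
  have := Lp.norm_le_of_ae_bound zero_le_one h
  simpa [measureUnivNNReal] using this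

omit [IsProbabilityMeasure μ] in
theorem norm_sq_eq (f : Lp ℝ 2 μ) : ‖f‖ ^ 2 = ∫ x, f x ^ 2 ∂μ := by
  rw [← real_inner_self_eq_norm_sq, L2.inner_def]
  simp

theorem cover_data (f0 : X → ℝ) (hm : Measurable f0) (h01 : ∀ x, 0 ≤ f0 x ∧ f0 x ≤ 1)
    (f : Lp ℝ 2 μ) (hf : f =ᵐ[μ] f0) (ρ : X → X → ℝ) (hlip : ∀ x y, |f0 x - f0 y| ≤ ρ x y)
    {S : Finset G} (hS : S.Nonempty) {δ : ℝ} (hδ : 0 < δ) {k : ℕ} (X₀ : Set X)
    (Y : Fin k → Set X) (hX₀ : MeasurableSet X₀) (hY : ∀ i, MeasurableSet (Y i))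
    (hcov : X₀ ∪ ⋃ i, Y i = Set.univ) (hμ : μ X₀ < ENNReal.ofReal δ)
    (hdiam : ∀ i, ∀ x ∈ Y i, ∀ y ∈ Y i, (∑ g ∈ S, ρ (g • x) (g • y)) / (S.card : ℝ) ≤ δ) :
    ∃ (V : Submodule ℝ (Lp ℝ 2 μ)) (_ : FiniteDimensional ℝ V) (v : G → Lp ℝ 2 μ),
      Module.finrank ℝ V ≤ k ∧ (∀ g, v g ∈ V) ∧ (∀ g, ‖v g‖ ≤ 1) ∧
      (∑ g ∈ S, ‖koop μ g⁻¹ f - v g‖ ^ 2) / S.card ≤ 2 * δ := by
  classical
  have hpos : (0 : ℝ) < S.card := by exact_mod_cast hS.card_pos
  have : Nonempty X := nonempty_of_isProbabilityMeasure μ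
  have hpt : ∀ i, ∃ p : X, ∀ x ∈ Y i, p ∈ Y i := by
    intro i
    rcases (Y i).eq_empty_or_nonempty with h | ⟨p, hp⟩
    · exact ⟨Classical.arbitrary X, by simp [h]⟩
    · exact ⟨p, fun _ _ => hp⟩
  choose p hp using hpt
  let Z : Fin k → Set X := fun i => Y i \ ⋃ j ∈ Finset.Iio i, Y j
  have hZ : ∀ i, MeasurableSet (Z i) := fun i =>
    (hY i).diff (Finset.measurableSet_biUnion _ fun j _ => hY j)
  have hZu : ∀ x i j, x ∈ Z i → x ∈ Z j → i = j := by
    intro x i j hi hj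
    by_contra hij
    rcases lt_or_gt_of_ne hij with h | h
    · exact hj.2 (Set.mem_biUnion (Finset.mem_Iio.mpr h) hi.1)
    · exact hi.2 (Set.mem_biUnion (Finset.mem_Iio.mpr h) hj.1)
  have hZc : ∀ x, x ∉ X₀ → ∃ i, x ∈ Z i := by
    intro x hx
    have h1 : x ∈ X₀ ∪ ⋃ i, Y i := hcov ▸ Set.mem_univ x
    obtain ⟨i, hi⟩ := Set.mem_iUnion.mp (h1.resolve_left hx)
    obtain ⟨j, hj⟩ := exists_minimal_of_wellFoundedLT (fun i => x ∈ Y i) ⟨i, hi⟩
    refine ⟨j, hj.1, fun h => ?_⟩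
    simp only [Set.mem_iUnion, Finset.mem_Iio] at h
    obtain ⟨l, hl, hxl⟩ := h
    exact absurd (hj.2 hxl hl.le) (not_le.mpr hl)
  let e : Fin k → Lp ℝ 2 μ := fun i => indicatorConstLp 2 (hZ i) (measure_ne_top μ _) 1
  let w : G → X → ℝ := fun g x => ∑ i, f0 (g • p i) * (Z i).indicator (fun _ => (1 : ℝ)) x
  have hw1 : ∀ g x i, x ∈ Z i → w g x = f0 (g • p i) := by
    intro g x i hi
    simp only [w]
    rw [Finset.sum_eq_single i]
    · simp [hi]
    · intro j _ hj
      rw [Set.indicator_of_notMem fun h => hj (hZu x j i h hi), mul_zero]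
    · simp
  have hw2 : ∀ g x, 0 ≤ w g x ∧ w g x ≤ 1 := by
    intro g x
    by_cases h : ∃ i, x ∈ Z i
    · obtain ⟨i, hi⟩ := h
      rw [hw1 g x i hi]
      exact h01 _
    · push Not at h
      simp [w, h]
  have hwm : ∀ g, Measurable (w g) := fun g =>
    Finset.measurable_sum _ fun i _ => (measurable_const.indicator (hZ i)).const_mul _
  let v : G → Lp ℝ 2 μ := fun g => ∑ i, f0 (g • p i) • e i
  have hv : ∀ g, v g =ᵐ[μ] w g := by
    intro g
    have h1 : ∀ᵐ x ∂μ, ∀ i, (f0 (g • p i) • e i) x =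
        f0 (g • p i) * (Z i).indicator (fun _ => (1 : ℝ)) x := by
      rw [eventually_all]
      intro i
      filter_upwards [Lp.coeFn_smul (f0 (g • p i)) (e i),
        indicatorConstLp_coeFn (p := 2) (hs := hZ i) (hμs := measure_ne_top μ _) (c := (1 : ℝ))]
        with x h1 h2
      rw [h1, Pi.smul_apply, smul_eq_mul]
      exact congrArg _ h2
    filter_upwards [h1, Lp.coeFn_finsetSum Finset.univ fun i => f0 (g • p i) • e i] with x h1 h2
    rw [show v g x = _ from h2, Finset.sum_apply]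
    exact Finset.sum_congr rfl fun i _ => h1 i
  refine ⟨Submodule.span ℝ (Set.range e), FiniteDimensional.span_of_finite ℝ (Set.finite_range e),
    v, (finrank_range_le_card e).trans (by simp), fun g => Submodule.sum_mem _ fun i _ =>
      Submodule.smul_mem _ _ (Submodule.subset_span (Set.mem_range_self i)), fun g => ?_, ?_⟩
  · refine norm_le_one_of_ae μ ((hv g).mono fun x hx => ?_)
    rw [hx, Real.norm_eq_abs, abs_of_nonneg (hw2 g x).1]
    exact (hw2 g x).2
  have habs : ∀ g x, |f0 (g • x) - w g x| ≤ 1 := fun g x =>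
    abs_le.mpr ⟨by linarith [(h01 (g • x)).1, (hw2 g x).2], by
      linarith [(h01 (g • x)).2, (hw2 g x).1]⟩
  have hsq : ∀ g x, (f0 (g • x) - w g x) ^ 2 ≤ |f0 (g • x) - w g x| := fun g x => by
    rw [← sq_abs]
    nlinarith [habs g x, abs_nonneg (f0 (g • x) - w g x)]
  have h1 : ∀ g, ‖koop μ g⁻¹ f - v g‖ ^ 2 = ∫ x, (f0 (g • x) - w g x) ^ 2 ∂μ := by
    intro g
    rw [norm_sq_eq]
    refine integral_congr_ae ?_
    filter_upwards [Lp.coeFn_sub (koop μ g⁻¹ f) (v g), koop_ae μ g⁻¹ f, hv g,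
      (measurePreserving_smul g μ).quasiMeasurePreserving.ae_eq_comp hf] with x h1 h2 h3 h4
    rw [h1, Pi.sub_apply, h2, h3, inv_inv]
    exact congrArg (fun t => (t - w g x) ^ 2) h4
  have hint : ∀ g, Integrable (fun x => (f0 (g • x) - w g x) ^ 2) μ := fun g =>
    Integrable.of_bound (((hm.comp (measurable_const_smul g)).sub (hwm g)).pow_const
      2).aestronglyMeasurable 1 (Eventually.of_forall fun x => by
        rw [Real.norm_eq_abs, abs_of_nonneg (sq_nonneg _)]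
        exact (hsq g x).trans (habs g x))
  simp only [h1]
  rw [← integral_finsetSum _ fun g _ => hint g, ← integral_div]
  have h2 : ∀ x, (∑ g ∈ S, (f0 (g • x) - w g x) ^ 2) / S.card ≤
      X₀.indicator (fun _ => (1 : ℝ)) x + δ := by
    intro x
    by_cases hx : x ∈ X₀
    · rw [Set.indicator_of_mem hx]
      refine le_trans ?_ (le_add_of_nonneg_right hδ.le)
      refine (le_abs_self _).trans (abs_avg_le _ _ _ zero_le_one fun g => ?_)
      rw [abs_of_nonneg (sq_nonneg _)]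
      exact (hsq g x).trans (habs g x)
    · rw [Set.indicator_of_notMem hx, zero_add]
      obtain ⟨i, hi⟩ := hZc x hx
      refine le_trans (div_le_div_of_nonneg_right (Finset.sum_le_sum fun g _ => ?_) hpos.le)
        (hdiam i x hi.1 (p i) (hp i x hi.1))
      refine (hsq g x).trans ?_
      rw [hw1 g x i hi]
      exact hlip _ _
  refine (integral_mono ((integrable_finsetSum _ fun g _ => hint g).div_const _)
    (((integrable_const (1 : ℝ)).indicator hX₀).add (integrable_const δ)) h2).trans ?_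
  simp only [Pi.add_apply]
  rw [integral_add ((integrable_const (1 : ℝ)).indicator hX₀) (integrable_const δ),
    integral_indicator_const _ hX₀]
  have h3 : μ.real X₀ ≤ δ := ENNReal.toReal_le_of_le_ofReal hδ.le hμ.le
  simp only [smul_eq_mul, mul_one, integral_const, probReal_univ, one_mul]
  linarith

theorem cover_of_lt_top {ρ : X → X → ℝ} {ε : ℝ} (hε : 0 < ε) {c : ℝ≥0∞}
    (h : epsEntropy μ ρ ε < c) :
    ∃ k : ℕ, 0 < k ∧ ENNReal.ofReal (Real.logb 2 k) < c ∧ ∃ (X₀ : Set X) (Y : Fin k → Set X),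
      MeasurableSet X₀ ∧ (∀ i, MeasurableSet (Y i)) ∧ X₀ ∪ ⋃ i, Y i = Set.univ ∧
      μ X₀ < ENNReal.ofReal ε ∧ ∀ i, ∀ x ∈ Y i, ∀ y ∈ Y i, ρ x y < ε := by
  simp only [epsEntropy, iInf_lt_iff] at h
  obtain ⟨k, ⟨hk, X₀, Y, h1, h2, h3, h4, h5⟩, hc⟩ := h
  refine ⟨k, hk, hc, X₀, Y, h1, h2, h3, h4, fun i x hx y hy => ?_⟩
  refine (ENNReal.ofReal_lt_ofReal_iff hε).mp (lt_of_le_of_lt ?_ (h5 i))
  exact le_iSup₂_of_le x hx (le_iSup₂_of_le y hy le_rfl)

theorem exists_witness [Countable G] {g0 : G} (hg0 : g0 ≠ 1) (hfree : EssFree G μ)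
    {ρ : X → X → ℝ} (hρ : IsGoodSemimetric G μ ρ) :
    ∃ (s : G) (y : X), ¬ ∀ᵐ x ∂μ, min 1 (ρ ((s * g0 * s⁻¹) • x) y) = min 1 (ρ x y) := by
  obtain ⟨hm, h0, hsymm, htri, -, hadm, X', hX', hgen⟩ := hρ
  by_contra hcon
  push Not at hcon
  have h1 : ∀ s : G, ∀ᵐ x ∂μ, ρ ((s * g0 * s⁻¹) • x) x = 0 := by
    intro s
    set g := s * g0 * s⁻¹
    have h2 : ∀ θ : ℝ, 0 < θ → μ {x | θ ≤ ρ (g • x) x} = 0 := by
      intro θ hθ
      refine le_antisymm (ENNReal.le_of_forall_pos_le_add fun η hη _ => ?_) zero_le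
      rw [zero_add]
      have hε : 0 < min (min 1 (θ / 2)) (η : ℝ) := by positivity
      obtain ⟨k, -, -, X₀, Y, -, -, hcov, hμ, hd⟩ := cover_of_lt_top μ hε (hadm _ hε)
      have hpt : ∀ i, ∀ᵐ x ∂μ, x ∈ Y i → ρ (g • x) x < θ := by
        intro i
        rcases (Y i).eq_empty_or_nonempty with h | ⟨y, hy⟩
        · simp [h]
        filter_upwards [hcon s y] with x hx hxi
        have h3 := hd i x hxi y hy
        simp only [lt_min_iff] at h3
        rw [min_eq_right h3.1.1.le] at hx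
        have h4 : ρ (g • x) y = ρ x y := by
          rcases min_choice 1 (ρ (g • x) y) with h | h
          · rw [h] at hx; linarith [h3.1.1]
          · rwa [h] at hx
        have := htri (g • x) y x
        rw [h4, hsymm y x] at this
        linarith [h3.1.2]
      rw [← eventually_all] at hpt
      refine (measure_mono_ae (t := X₀) ?_).trans (hμ.le.trans ?_)
      · filter_upwards [hpt] with x hx hθx
        have h3 : x ∈ X₀ ∪ ⋃ i, Y i := hcov ▸ Set.mem_univ x
        refine h3.resolve_right fun h => ?_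
        obtain ⟨i, hi⟩ := Set.mem_iUnion.mp h
        exact absurd (hx i hi) (not_lt.mpr hθx)
      · rw [← ENNReal.ofReal_coe_nnreal]
        exact ENNReal.ofReal_le_ofReal (min_le_right _ _)
    have h3 : ∀ᵐ x ∂μ, ∀ j : ℕ, ¬ 1 / ((j : ℝ) + 1) ≤ ρ (g • x) x := by
      rw [ae_all_iff]
      intro j
      rw [ae_iff]
      simpa using h2 _ (Nat.one_div_pos_of_nat (n := j))
    filter_upwards [h3] with x hx
    by_contra hne
    obtain ⟨j, hj⟩ := exists_nat_one_div_lt (lt_of_le_of_ne (h0 _ _) (Ne.symm hne))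
    exact hx j hj.le
  have h2 : ∀ᵐ x ∂μ, ∀ s : G, ρ (s • g0 • x) (s • x) = 0 := by
    rw [ae_all_iff]
    intro s
    filter_upwards [(measurePreserving_smul s μ).quasiMeasurePreserving.ae (h1 s)] with x hx
    simpa [mul_smul] using hx
  have h3 : ∀ᵐ x ∂μ, x ∈ X' := hX'
  obtain ⟨x, hx1, hx2, hx3, hx4⟩ := (h2.and (h3.and
    (((measurePreserving_smul g0 μ).quasiMeasurePreserving.ae h3).and hfree))).exists
  obtain ⟨s, hs⟩ := hgen _ hx3 _ hx2 fun h => hg0 (hx4 g0 h)
  exact hs (hx1 s)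

theorem main (G : Type) [Group G] [Countable G] [DecidableEq G] (F : ℕ → Finset G)
    (hF : IsFolner F)
    (hno : ∀ (X : Type) [MeasurableSpace X] [StandardBorelSpace X] (μ : Measure X)
      [IsProbabilityMeasure μ] [MulAction G X] [MeasurableConstSMul G X]
      [SMulInvariantMeasure G X μ], EssFree G μ → ¬ IsCompactAction G μ) :
    ∃ φ : ℕ → ℝ≥0, Tendsto φ atTop atTop ∧
      ∀ (X : Type) [MeasurableSpace X] [StandardBorelSpace X] (μ : Measure X)
        [IsProbabilityMeasure μ] [MulAction G X] [MeasurableConstSMul G X]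
        [SMulInvariantMeasure G X μ], EssFree G μ → ∀ ρ : X → X → ℝ, IsGoodSemimetric G μ ρ →
          Precsim (fun n _ => (φ n : ℝ≥0∞)) (Phi μ F ρ) := by
  classical
  obtain ⟨g0, hg0, hker⟩ := exists_inKer hno
  obtain ⟨e, he⟩ := exists_surjective_nat G
  let C : G → ℕ → ℝ → ℕ → Prop := fun g k ε n =>
    ∀ (H : Type) [NormedAddCommGroup H] [InnerProductSpace ℝ H]
      (π : G →* (H →ₗᵢ[ℝ] H)) (f : H) (V : Submodule ℝ H) [FiniteDimensional ℝ V] (v : G → H),
      Module.finrank ℝ V ≤ k → ‖f‖ ≤ 1 → (∀ g, v g ∈ V) → (∀ g, ‖v g‖ ≤ 1) →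
      (∑ g ∈ F n, ‖π g⁻¹ f - v g‖ ^ 2) / (F n).card ≤ ε ^ 2 → ‖π g f - f‖ ≤ 5 * ε
  let Q : ℕ → ℕ → Prop := fun n m => ∀ i ∈ Finset.range m, ∀ j ∈ Finset.range m,
    C (e i * g0 * (e i)⁻¹)⁻¹ (2 ^ m) (1 / ((j : ℝ) + 1)) n
  have hQ : ∀ m, ∀ᶠ n in atTop, Q n m := by
    intro m
    simp only [Q, eventually_all_finset]
    exact fun i _ j _ => core hF (hker.conj _).inv _ Nat.one_div_pos_of_nat
  let ψ : ℕ → ℕ := fun n => Nat.findGreatest (Q n) n
  have hψ : Tendsto ψ atTop atTop := by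
    rw [tendsto_atTop]
    intro m
    filter_upwards [hQ m, eventually_ge_atTop m] with n h1 h2
    exact Nat.le_findGreatest h2 h1
  have hψQ : ∀ n, Q n (ψ n) := fun n =>
    Nat.findGreatest_spec (P := Q n) (Nat.zero_le n) (by simp [Q])
  refine ⟨fun n => ψ n, tendsto_natCast_atTop_atTop.comp hψ, ?_⟩
  intro X _ _ μ _ _ _ _ hfree ρ hρ ε _
  obtain ⟨s, y, hsy⟩ := exists_witness μ hg0 hfree hρ
  obtain ⟨hm, h0, hsymm, htri, -⟩ := hρ
  obtain ⟨i, rfl⟩ := he s
  let f0 : X → ℝ := fun x => min 1 (ρ x y)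
  have hf0 : Measurable f0 := measurable_const.min (hm.comp measurable_prodMk_right)
  have h01 : ∀ x, 0 ≤ f0 x ∧ f0 x ≤ 1 := fun x => ⟨le_min zero_le_one (h0 _ _), min_le_left _ _⟩
  have hlip : ∀ x x', |f0 x - f0 x'| ≤ ρ x x' := by
    intro x x'
    refine (abs_min_sub_min_le_max _ _ _ _).trans (max_le (by simpa using h0 x x') ?_)
    have := htri x x' y
    have := htri x' x y
    rw [hsymm x' x] at this
    exact abs_le.mpr ⟨by linarith, by linarith⟩
  have hb : ∀ᵐ x ∂μ, ‖f0 x‖ ≤ 1 := Eventually.of_forall fun x => by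
    rw [Real.norm_eq_abs, abs_of_nonneg (h01 x).1]; exact (h01 x).2
  have hmem : MemLp f0 2 μ := MemLp.of_bound hf0.aestronglyMeasurable 1 hb
  let f : Lp ℝ 2 μ := hmem.toLp f0
  have hf : f =ᵐ[μ] f0 := hmem.coeFn_toLp
  have hf1 : ‖f‖ ≤ 1 := norm_le_one_of_ae μ (by filter_upwards [hf, hb] with x h1 h2; rwa [h1])
  set g := e i * g0 * (e i)⁻¹ with hg
  have hc : 0 < ‖koop μ g⁻¹ f - f‖ := by
    rw [norm_pos_iff, sub_ne_zero]
    intro h
    apply hsy
    have h1 := koop_ae μ g⁻¹ f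
    rw [h, inv_inv] at h1
    filter_upwards [h1, hf, (measurePreserving_smul g μ).quasiMeasurePreserving.ae_eq_comp hf]
      with x h1 h2 h3
    exact (h3.symm.trans h1.symm).trans h2
  obtain ⟨j, hj⟩ := exists_nat_one_div_lt (show 0 < ‖koop μ g⁻¹ f - f‖ / 5 by positivity)
  have hδ : 0 < (1 / ((j : ℝ) + 1)) ^ 2 / 2 := by positivity
  refine ⟨_, hδ, lt_of_le_of_lt (limsup_le_of_le (a := 1) ?_ ?_) ENNReal.one_lt_top⟩
  · isBoundedDefault
  filter_upwards [hψ.eventually (eventually_gt_atTop i), hψ.eventually (eventually_gt_atTop j)]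
    with n hi hj'
  refine ENNReal.div_le_of_le_mul ?_
  rw [one_mul]
  by_contra hlt
  obtain ⟨k, hk, hlog, X₀, Y, h1, h2, h3, h4, h5⟩ := cover_of_lt_top μ hδ (not_le.mp hlt)
  have hk2 : k ≤ 2 ^ ψ n := by
    rw [ENNReal.coe_natCast, ← ENNReal.ofReal_natCast] at hlog
    have h6 := ((ENNReal.ofReal_lt_ofReal_iff'.mp hlog).1).le
    rw [Real.logb_le_iff_le_rpow (by norm_num) (by exact_mod_cast hk), Real.rpow_natCast] at h6
    exact_mod_cast h6
  obtain ⟨V, _, v, hV, hv, hv1, happ⟩ := cover_data μ f0 hf0 h01 f hf ρ hlip (hF.1 n) hδ X₀ Y h1 h2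
    h3 h4 fun l x hx x' hx' => (h5 l x hx x' hx').le
  have := hψQ n i (Finset.mem_range.mpr hi) j (Finset.mem_range.mpr hj') _ (koop μ) f V v
    (hV.trans hk2) hf1 hv hv1 (by linarith)
  linarith

end Pool.Agent.P.MP_0c3bbf_an
end
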